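import Mathlib
import Pool.Agent.Helper41.LF.GoalsA

set_option autoImplicit false

namespace Pool.Agent.Helper4.LF

open Pool.Agent.Helper41.LF

theorem thm_NZM : S_NZM := by
  intro j n β hβ
  let A : Matrix (Fin j) (Fin n) ℚ := Matrix.of β
  have hrank : A.rank = j := by
    have h := LinearIndependent.rank_matrix (M := A) hβ
    simpa using h
  have hfr : Module.finrank ℚ (Submodule.span ℚ (Set.range A.col)) = j := by
    rw [← Matrix.rank_eq_finrank_span_cols]; exact hrank
  obtain ⟨κ, a, ha, hspan, hli⟩ := exists_linearIndependent' ℚ A.col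
  have hfin : Finite κ := hli.finite
  haveI : Fintype κ := Fintype.ofFinite κ
  have hcard : Fintype.card κ = j := by
    have h := finrank_span_eq_card hli
    rw [hspan, hfr] at h
    exact h.symm
  let e : Fin j ≃ κ := (finCongr hcard.symm).trans (Fintype.equivFin κ).symm
  refine ⟨a ∘ e, ?_⟩
  have hli2 : LinearIndependent ℚ (A.col ∘ (a ∘ e)) := by
    have := hli.comp e e.injective
    exact this
  have hunit : IsUnit (Matrix.of fun (k l : Fin j) => β k ((a ∘ e) l)) := by
    rw [← Matrix.linearIndependent_cols_iff_isUnit]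
    exact hli2
  rw [Matrix.isUnit_iff_isUnit_det] at hunit
  exact hunit.ne_zero

end Pool.Agent.Helper4.LF
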